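import Mathlib

set_option autoImplicit false

open Complex Set
open scoped ComplexConjugate Real

namespace Pool.Agent.H348.ZD

theorem t_int_aux (ι : Type) [Fintype ι] (b U V θ : ℝ) (f : ι → ℂ → ℂ) (s : ℂ) (hb : 1 / 2 < b)
    (hU : 0 < U) (hV : 0 < V) (hf : ∀ i, Differentiable ℂ (f i))
    (hbd : ∀ i, ∃ C : ℝ, ∀ z : ℂ, 1 / 2 ≤ z.re → z.re ≤ b → ‖f i z‖ ≤ C)
    (h1 : ∀ z : ℂ, z.re = 1 / 2 → ∑ i, ‖f i z‖ ≤ U)
    (h2 : ∀ z : ℂ, z.re = b → ∑ i, ‖f i z‖ ^ 2 ≤ V)
    (h0 : 0 ≤ θ) (hθ : θ ≤ 1) (hs : s.re = 1 / 2 + θ * (b - 1 / 2)) :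
    ∑ i, ‖f i s‖ ^ (2 / (2 - θ)) ≤ U ^ (2 * (1 - θ) / (2 - θ)) * V ^ (θ / (2 - θ)) := by
  set p : ℝ := 2 / (2 - θ) with hp
  have h2θ : 0 < 2 - θ := by linarith
  have hp0 : 0 < p := by rw [hp]; positivity
  set a : ι → ℝ := fun i => ‖f i s‖ ^ p with ha
  have ha0 : ∀ i, 0 ≤ a i := fun i => by rw [ha]; positivity
  set S : ℝ := ∑ i, a i with hS
  have hSnn : 0 ≤ S := Finset.sum_nonneg fun i _ => ha0 i
  change S ≤ _
  rcases hSnn.eq_or_lt with hS0 | hSpos
  · rw [← hS0]; positivity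
  set d : ℝ := b - 1 / 2 with hd
  have hdpos : 0 < d := by rw [hd]; linarith
  set w : ι → ℂ := fun i => conj (f i s) / (‖f i s‖ : ℂ) with hw
  have hw1 : ∀ i, ‖w i‖ ≤ 1 := by
    intro i
    simp only [hw, norm_div, RCLike.norm_conj, Complex.norm_real, norm_norm]
    exact div_self_le_one _
  have hwf : ∀ i, w i * f i s = (‖f i s‖ : ℂ) := by
    intro i
    simp only [hw]
    by_cases hi : f i s = 0
    · simp [hi]
    · have hn : (‖f i s‖ : ℂ) ≠ 0 := by
        simpa using hi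
      rw [div_mul_eq_mul_div, mul_comm, Complex.mul_conj, Complex.normSq_eq_norm_sq]
      push_cast
      field_simp
  set L : ι → ℝ := fun i => Real.log (a i) with hL
  set E : ι → ℂ → ℂ := fun i z =>
    Complex.exp ((L i : ℂ) * ((z - 1 / 2 - (s.im : ℂ) * Complex.I) / ((2 * d : ℝ) : ℂ))) with hE
  have hEn : ∀ i z, ‖E i z‖ = Real.exp (L i * ((z.re - 1 / 2) / (2 * d))) := by
    intro i z
    simp only [hE]
    rw [Complex.norm_exp, Complex.re_ofReal_mul, Complex.div_ofReal_re]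
    simp
  set Φ : ℂ → ℂ := fun z => ∑ i, w i * f i z * E i z with hΦ
  have hEd : ∀ i, Differentiable ℂ (E i) := by
    intro i
    simp only [hE]
    fun_prop
  have hΦd : Differentiable ℂ Φ := by
    simp only [hΦ]
    refine Differentiable.fun_sum fun i _ => ?_
    exact ((differentiable_const _).mul (hf i)).mul (hEd i)
  -- weights at the right edge
  have hwE : ∀ i (z : ℂ), z.re = b → ‖w i‖ * ‖E i z‖ ≤ a i ^ (1 / 2 : ℝ) := by
    intro i z hz
    rw [hEn]
    have : (z.re - 1 / 2) / (2 * d) = 1 / 2 := by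
      rw [hz, ← hd, div_eq_div_iff (by positivity) (by norm_num)]; ring
    rw [this]
    by_cases hi : f i s = 0
    · have : w i = 0 := by simp [hw, hi]
      rw [this]; simp only [norm_zero, zero_mul]; exact Real.rpow_nonneg (ha0 i) _
    · have hai : 0 < a i := by
        simp only [ha]; exact Real.rpow_pos_of_pos (norm_pos_iff.2 hi) _
      rw [Real.rpow_def_of_pos hai]
      calc ‖w i‖ * Real.exp (L i * (1 / 2)) ≤ 1 * Real.exp (L i * (1 / 2)) :=
            mul_le_mul_of_nonneg_right (hw1 i) (Real.exp_pos _).le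
        _ = Real.exp (Real.log (a i) * (1 / 2)) := by rw [one_mul]
  -- left edge
  have hleft : ∀ z ∈ re ⁻¹' {(1 / 2 : ℝ)}, ‖Φ z‖ ≤ U := by
    intro z hz
    have hz' : z.re = 1 / 2 := hz
    refine le_trans ?_ (h1 z hz')
    simp only [hΦ]
    refine (norm_sum_le _ _).trans (Finset.sum_le_sum fun i _ => ?_)
    rw [norm_mul, norm_mul, hEn, hz']
    simp only [sub_self, zero_div, mul_zero, Real.exp_zero, mul_one]
    calc ‖w i‖ * ‖f i z‖ ≤ 1 * ‖f i z‖ := mul_le_mul_of_nonneg_right (hw1 i) (norm_nonneg _)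
      _ = _ := one_mul _
  -- right edge
  have hright : ∀ z ∈ re ⁻¹' {b}, ‖Φ z‖ ≤ (V * S) ^ (1 / 2 : ℝ) := by
    intro z hz
    have hz' : z.re = b := hz
    have step : ‖Φ z‖ ≤ ∑ i, ‖f i z‖ * a i ^ (1 / 2 : ℝ) := by
      simp only [hΦ]
      refine (norm_sum_le _ _).trans (Finset.sum_le_sum fun i _ => ?_)
      rw [norm_mul, norm_mul]
      calc ‖w i‖ * ‖f i z‖ * ‖E i z‖ = ‖f i z‖ * (‖w i‖ * ‖E i z‖) := by ring
        _ ≤ _ := mul_le_mul_of_nonneg_left (hwE i z hz') (norm_nonneg _)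
    have cs := Finset.sum_mul_sq_le_sq_mul_sq Finset.univ (fun i => ‖f i z‖)
      (fun i => a i ^ (1 / 2 : ℝ))
    have hsq : ∑ i, (a i ^ (1 / 2 : ℝ)) ^ 2 = S := by
      rw [hS]
      refine Finset.sum_congr rfl fun i _ => ?_
      rw [← Real.rpow_natCast, ← Real.rpow_mul (ha0 i)]
      norm_num
    rw [hsq] at cs
    have hnn : 0 ≤ ∑ i, ‖f i z‖ * a i ^ (1 / 2 : ℝ) :=
      Finset.sum_nonneg fun i _ => mul_nonneg (norm_nonneg _) (Real.rpow_nonneg (ha0 i) _)
    have cs2 : (∑ i, ‖f i z‖ * a i ^ (1 / 2 : ℝ)) ^ 2 ≤ V * S :=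
      cs.trans (mul_le_mul_of_nonneg_right (h2 z hz') hSnn)
    rw [← Real.sqrt_eq_rpow]
    exact step.trans (Real.le_sqrt_of_sq_le cs2)
  -- bounded
  have hB : BddAbove ((norm ∘ Φ) '' Complex.HadamardThreeLines.verticalClosedStrip (1 / 2) b) := by
    choose C hC using hbd
    refine ⟨∑ i, C i * Real.exp (|L i|), ?_⟩
    rintro _ ⟨z, hz, rfl⟩
    have hz1 : 1 / 2 ≤ z.re := hz.1
    have hz2 : z.re ≤ b := hz.2
    simp only [Function.comp, hΦ]
    refine (norm_sum_le _ _).trans (Finset.sum_le_sum fun i _ => ?_)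
    rw [norm_mul, norm_mul, hEn]
    have e1 : ‖w i‖ * ‖f i z‖ ≤ C i := by
      calc ‖w i‖ * ‖f i z‖ ≤ 1 * ‖f i z‖ := mul_le_mul_of_nonneg_right (hw1 i) (norm_nonneg _)
        _ ≤ C i := by rw [one_mul]; exact hC i z hz1 hz2
    have e2 : Real.exp (L i * ((z.re - 1 / 2) / (2 * d))) ≤ Real.exp (|L i|) := by
      apply Real.exp_le_exp.2
      have t0 : 0 ≤ (z.re - 1 / 2) / (2 * d) := div_nonneg (by linarith) (by positivity)
      have t1 : (z.re - 1 / 2) / (2 * d) ≤ 1 := by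
        rw [div_le_one (by positivity)]; rw [hd]; linarith
      calc L i * ((z.re - 1 / 2) / (2 * d)) ≤ |L i| * ((z.re - 1 / 2) / (2 * d)) :=
            mul_le_mul_of_nonneg_right (le_abs_self _) t0
        _ ≤ |L i| * 1 := mul_le_mul_of_nonneg_left t1 (abs_nonneg _)
        _ = |L i| := mul_one _
    exact mul_le_mul e1 e2 (Real.exp_pos _).le
      ((mul_nonneg (norm_nonneg _) (norm_nonneg _)).trans e1)
  have hsin : s ∈ Complex.HadamardThreeLines.verticalClosedStrip (1 / 2) b := by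
    constructor
    · change 1 / 2 ≤ s.re
      rw [hs]; nlinarith
    · change s.re ≤ b
      rw [hs]; nlinarith
  have key := Complex.HadamardThreeLines.norm_le_interp_of_mem_verticalClosedStrip'
    (f := Φ) hb hsin hΦd.diffContOnCl hB hleft hright
  have hq : (s.re - 1 / 2) / (b - 1 / 2) = θ := by
    rw [← hd, hs, add_sub_cancel_left]
    exact mul_div_cancel_right₀ _ hdpos.ne'
  rw [hq] at key
  -- value at s
  have hval : Φ s = ((S : ℝ) : ℂ) := by
    simp only [hΦ, hS]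
    push_cast
    refine Finset.sum_congr rfl fun i _ => ?_
    rw [hwf]
    have hEs : E i s = ((Real.exp (L i * (θ / 2)) : ℝ) : ℂ) := by
      simp only [hE]
      rw [Complex.ofReal_exp]
      congr 1
      have e1 : s - 1 / 2 - (s.im : ℂ) * Complex.I = ((θ * d : ℝ) : ℂ) := by
        apply Complex.ext
        · simp [hs, hd]
        · simp
      rw [e1, ← Complex.ofReal_div, ← Complex.ofReal_mul]
      congr 2
      field_simp
    rw [hEs, ← Complex.ofReal_mul]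
    congr 1
    by_cases hi : f i s = 0
    · simp only [hi, norm_zero, zero_mul, ha]
      rw [Real.zero_rpow hp0.ne']
    · have hn : 0 < ‖f i s‖ := norm_pos_iff.2 hi
      simp only [hL, ha]
      rw [Real.log_rpow hn]
      have : Real.exp (p * Real.log ‖f i s‖ * (θ / 2)) = ‖f i s‖ ^ (p * (θ / 2)) := by
        rw [Real.rpow_def_of_pos hn]; congr 1; ring
      rw [this]
      nth_rewrite 1 [← Real.rpow_one ‖f i s‖]
      rw [← Real.rpow_add hn]
      congr 1
      rw [hp]; field_simp; ring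
  rw [hval, Complex.norm_real, Real.norm_of_nonneg hSnn] at key
  -- S ≤ U^(1-θ) * ((V S)^(1/2))^θ
  have hVS : ((V * S) ^ (1 / 2 : ℝ)) ^ θ = V ^ (θ / 2) * S ^ (θ / 2) := by
    rw [← Real.rpow_mul (by positivity), Real.mul_rpow hV.le hSnn]
    congr 2 <;> ring
  rw [hVS] at key
  have hkey2 : S ^ (1 - θ / 2) ≤ U ^ (1 - θ) * V ^ (θ / 2) := by
    have hpos : 0 < S ^ (θ / 2) := Real.rpow_pos_of_pos hSpos _
    rw [Real.rpow_sub hSpos, Real.rpow_one, div_le_iff₀ hpos]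
    calc S ≤ _ := key
      _ = _ := by ring
  have hkey3 := Real.rpow_le_rpow (Real.rpow_nonneg hSnn _) hkey2 hp0.le
  rw [← Real.rpow_mul hSnn, Real.mul_rpow (Real.rpow_nonneg hU.le _) (Real.rpow_nonneg hV.le _),
    ← Real.rpow_mul hU.le, ← Real.rpow_mul hV.le] at hkey3
  have x1 : (1 - θ / 2) * p = 1 := by rw [hp]; field_simp
  have x2 : (1 - θ) * p = 2 * (1 - θ) / (2 - θ) := by rw [hp]; ring
  have x3 : θ / 2 * p = θ / (2 - θ) := by rw [hp]; field_simp
  rwa [x1, x2, x3, Real.rpow_one] at hkey3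

end Pool.Agent.H348.ZD
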